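import Pool.Agent.Q98.SPN.Stm

set_option autoImplicit false

/-! Project GSP, package TRM (helper338). -/

namespace Pool.Agent.U338.GSP.TRM

open Pool.Agent.Q98.SPN

theorem t_TRM : S_TRM := by
  classical
  intro k d a
  obtain ⟨b, hb⟩ : ∃ b : Module.Basis (Σ i : Fin k, Fin (d i) × Fin (d i)) ℂ
      ((i : Fin k) → Matrix (Fin (d i)) (Fin (d i)) ℂ),
      b = Pi.basis (fun i : Fin k => Matrix.stdBasis ℂ (Fin (d i)) (Fin (d i))) := ⟨_, rfl⟩
  rw [LinearMap.trace_eq_matrix_trace ℂ b, Matrix.trace]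
  have key : ∀ j : (Σ i : Fin k, Fin (d i) × Fin (d i)),
      Matrix.diag (LinearMap.toMatrix b b (LinearMap.mulLeft ℂ a)) j = a j.1 j.2.1 j.2.1 := by
    rintro ⟨i, u, v⟩
    rw [Matrix.diag_apply, LinearMap.toMatrix_apply, hb, Pi.basis_repr, LinearMap.mulLeft_apply,
      Pi.basis_apply]
    simp only [Pi.mul_apply, Pi.single_eq_same]
    rw [Matrix.stdBasis_eq_single]
    have h : ∀ X : Matrix (Fin (d i)) (Fin (d i)) ℂ,
        (Matrix.stdBasis ℂ (Fin (d i)) (Fin (d i))).repr X (u, v) = X u v := by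
      intro X
      rfl
    rw [h]
    simp
  rw [Finset.sum_congr rfl (fun j _ => key j), Fintype.sum_sigma]
  refine Finset.sum_congr rfl fun i _ => ?_
  rw [Fintype.sum_prod_type]
  simp [Matrix.trace, Finset.mul_sum]

end Pool.Agent.U338.GSP.TRM
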